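import Pool.Agent.helper19.FE.Spec
import Pool.Agent.helper69.FP.ONE

/-! Row fe:ONG (helper94): one pair of facing labels, abstract relations. -/

set_option autoImplicit false

namespace Pool.Agent.FE

open Finset
open Pool.Agent.FR (mean)
open Pool.Agent.AT (Qk Pair)
open Pool.Agent.HF (TC)
open Pool.Agent.DP (Fm PrE)
open Pool.Agent.FP (fa DataU ONE_mono ONE_nonneg ONE_le_one ONE_ge ONE_tc ONE_fa)

open Classical in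
theorem ONG_good (hCOR : Pool.Agent.FP.COR_stmt) (hCNX : Pool.Agent.FP.CNX_stmt) (X m D D' l A B w₁ w₂ : ℕ) (C h₁ h₂ : ℤ)
    (g g' : Fin X → ℝ) (ε δ e₁ : ℝ)
    (hX : 1 ≤ X) (hε : 0 < ε) (hε1 : ε ≤ 1) (he₁ : 0 ≤ e₁) (hA : 1 ≤ A) (hB : 1 ≤ B) (hAm : A ≤ m) (hBm : B ≤ m) (hcop : Nat.Coprime A B)
    (hne : w₁ ≠ w₂) (hw₁ : 1 ≤ w₁) (hww : A * w₁ = B * w₂) (hoo : (A : ℤ) * h₁ - B * h₂ = C)
    (hg : ∀ u, 0 ≤ g u ∧ g u ≤ 1) (hg' : ∀ u, 0 ≤ g' u ∧ g' u ≤ 1)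
    (hP : (mean fun z : Fin X × Fin X => if PrE (w₁, h₁ + (D : ℤ) * ((z.1 : ℕ) : ℤ)) (w₂, h₂ + (D : ℤ) * ((z.2 : ℕ) : ℤ)) then 0 else g z.1 * g' z.2) ≤ δ)
    (hF : (#{v ∈ Icc (-((m * X : ℕ) : ℤ)) (m * X : ℕ) | Fm (fa (A, B)) (D * D') l (C + D * v) < ε / 2} : ℝ) ≤ e₁ * (2 * (m * X : ℕ) + 1)) :
    ε / 2 * (mean g * mean g') - 3 * m * e₁ - δ ≤ mean fun z : Fin X × Fin X => g z.1 * g' z.2 *
      (Fm (fa (A, B)) (D * D') l (C + D * ((A : ℤ) * ((z.1 : ℕ) : ℤ) - B * ((z.2 : ℕ) : ℤ))) -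
        fa (A, B) (C + D * ((A : ℤ) * ((z.1 : ℕ) : ℤ) - B * ((z.2 : ℕ) : ℤ)))) := by
  have h1 := hCNX A B m X e₁ (fun v => Fm (fa (A, B)) (D * D') l (C + D * v) < ε / 2) hA hB hAm hBm hX he₁ (by
      refine le_trans (le_of_eq ?_) hF
      congr 2)
  refine hCOR X g g' _ _ ε (3 * m * e₁) δ hX hε hε1 hg hg' ?_ ?_ ?_
  · intro z
    unfold Pool.Agent.DP.Fm
    exact ⟨ONE_nonneg fun k => (ONE_fa _ _).1, ONE_le_one fun k => (ONE_fa _ _).2⟩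
  · refine le_trans (le_of_eq ?_) h1
    unfold Pool.Agent.FR.mean
    congr 1
  · refine le_trans (ONE_mono fun z => ?_) hP
    have hAA : 0 ≤ g z.1 * g' z.2 := mul_nonneg (hg _).1 (hg' _).1
    by_cases h2 : PrE (w₁, h₁ + (D : ℤ) * ((z.1 : ℕ) : ℤ)) (w₂, h₂ + (D : ℤ) * ((z.2 : ℕ) : ℤ))
    · rw [if_pos h2]
      have h3 : Pair (w₁, h₁ + (D : ℤ) * ((z.1 : ℕ) : ℤ)) (w₂, h₂ + (D : ℤ) * ((z.2 : ℕ) : ℤ)) := by
        rcases h2 with h2 | h2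
        · exact absurd (congrArg Prod.fst h2) hne
        · exact h2
      have h4 := ONE_tc A B w₁ w₂ _ _ hB hw₁ hcop hww h3
      have h5 : (A : ℤ) * (h₁ + (D : ℤ) * ((z.1 : ℕ) : ℤ)) - B * (h₂ + (D : ℤ) * ((z.2 : ℕ) : ℤ)) =
          C + D * ((A : ℤ) * ((z.1 : ℕ) : ℤ) - B * ((z.2 : ℕ) : ℤ)) := by
        rw [← hoo]
        ring
      rw [h5] at h4
      have h6 : fa (A, B) (C + D * ((A : ℤ) * ((z.1 : ℕ) : ℤ) - B * ((z.2 : ℕ) : ℤ))) = 0 := by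
        unfold Pool.Agent.FP.fa
        rw [if_pos h4]
      rw [h6, mul_zero]
    · rw [if_neg h2]
      exact mul_le_of_le_one_right hAA (ONE_fa _ _).2

theorem ONG (h1 : Pool.Agent.FP.COR_stmt) (h2 : Pool.Agent.FP.CNX_stmt) : ONG_stmt := by
  classical
  intro G X m D D' l A B C w H T T' f ε η δ e₁ hG hX hD hl hε hε1 hη hδ he₁ hA hB hAm hBm hcop hAB hw hT hf hPr hF
  have hG0 : (0 : ℝ) < G := by exact_mod_cast hG
  set R : Fin G → ℝ := fun φ => mean fun z : Fin X × Fin X => f (T φ) z.1 * f (T' φ) z.2 *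
      (Fm (fa (A, B)) (D * D') l (C + D * ((A : ℤ) * ((z.1 : ℕ) : ℤ) - B * ((z.2 : ℕ) : ℤ))) -
        fa (A, B) (C + D * ((A : ℤ) * ((z.1 : ℕ) : ℤ) - B * ((z.2 : ℕ) : ℤ)))) with hR
  set M : Fin G → ℝ := fun φ => mean (f (T φ)) * mean (f (T' φ)) with hM
  have hM1 : ∀ φ, 0 ≤ M φ ∧ M φ ≤ 1 := by
    intro φ
    have h1 : 0 ≤ mean (f (T φ)) := ONE_nonneg fun u => (hf _ u).1
    have h2 : 0 ≤ mean (f (T' φ)) := ONE_nonneg fun u => (hf _ u).1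
    have h3 : mean (f (T φ)) ≤ 1 := ONE_le_one fun u => (hf _ u).2
    have h4 : mean (f (T' φ)) ≤ 1 := ONE_le_one fun u => (hf _ u).2
    exact ⟨mul_nonneg h1 h2, mul_le_one₀ h3 h2 h4⟩
  let P₁ : Fin G → Prop := fun φ => A * w (T φ) = B * w (T' φ) ∧ (A : ℤ) * H (T φ) - B * H (T' φ) = C
  have hb1 : (#{φ | ¬ P₁ φ} : ℝ) ≤ η * G := hT
  have hRge : ∀ φ, -1 ≤ R φ := by
    intro φ
    refine ONE_ge fun z => ?_
    have h1 : 0 ≤ f (T φ) z.1 * f (T' φ) z.2 := mul_nonneg (hf _ _).1 (hf _ _).1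
    have h2 : f (T φ) z.1 * f (T' φ) z.2 ≤ 1 := mul_le_one₀ (hf _ _).2 (hf _ _).1 (hf _ _).2
    have h3 : 0 ≤ Fm (fa (A, B)) (D * D') l (C + D * ((A : ℤ) * ((z.1 : ℕ) : ℤ) - B * ((z.2 : ℕ) : ℤ))) := by
      unfold Pool.Agent.DP.Fm
      exact ONE_nonneg fun k => (ONE_fa _ _).1
    have h4 := (ONE_fa (A, B) (C + D * ((A : ℤ) * ((z.1 : ℕ) : ℤ) - B * ((z.2 : ℕ) : ℤ)))).2
    nlinarith
  have hpt : ∀ φ, ε / 2 * M φ - 3 * m * e₁ - δ - 2 * (if ¬ P₁ φ then 1 else 0) ≤ R φ := by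
    intro φ
    by_cases h3 : P₁ φ
    · rw [if_neg (not_not.2 h3)]
      have hwne : w (T φ) ≠ w (T' φ) := by
        intro h
        have h4 := h3.1
        rw [← h] at h4
        exact hAB (Nat.eq_of_mul_eq_mul_right (hw (T φ)) h4)
      have h5 := ONG_good h1 h2 X m D D' l A B (w (T φ)) (w (T' φ)) C (H (T φ)) (H (T' φ)) (f (T φ)) (f (T' φ)) ε δ e₁ hX hε hε1 he₁ hA hB hAm hBm hcop
        hwne (hw _) h3.1 h3.2 (hf _) (hf _) (hPr _ _ (fun h => hwne (by rw [h]))) hF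
      show ε / 2 * M φ - 3 * m * e₁ - δ - 2 * 0 ≤ R φ
      have h6 : ε / 2 * M φ - 3 * m * e₁ - δ ≤ R φ := h5
      linarith
    · rw [if_pos h3]
      have h4 := hRge φ
      have h5 := hM1 φ
      have h6 : ε / 2 * M φ ≤ 1 := by nlinarith [h5.1, h5.2]
      have h7 : 0 ≤ 3 * (m : ℝ) * e₁ := by positivity
      linarith
  have hsum : ∑ φ, (ε / 2 * M φ - 3 * m * e₁ - δ - 2 * (if ¬ P₁ φ then 1 else 0)) ≤ ∑ φ, R φ :=
    sum_le_sum fun φ _ => hpt φ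
  have hL : ∑ φ, (ε / 2 * M φ - 3 * m * e₁ - δ - 2 * (if ¬ P₁ φ then 1 else 0)) =
      ε / 2 * ∑ φ, M φ - G * (3 * m * e₁) - G * δ - 2 * (#{γ | ¬ P₁ γ} : ℝ) := by
    have c1 : ∑ x, (if ¬ P₁ x then (1 : ℝ) else 0) = #{γ | ¬ P₁ γ} := by
      rw [← sum_filter, sum_const, nsmul_eq_mul, mul_one]
    simp only [sum_sub_distrib, ← mul_sum, sum_const, card_univ, Fintype.card_fin, nsmul_eq_mul]
    rw [c1]
    ring
  show ε / 2 * (mean M) - 3 * m * e₁ - δ - 2 * η ≤ mean R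
  unfold Pool.Agent.FR.mean
  rw [Fintype.card_fin, le_div_iff₀ hG0]
  rw [hL] at hsum
  have e1 : (ε / 2 * ((∑ x, M x) / G) - 3 * m * e₁ - δ - 2 * η) * G = ε / 2 * ∑ φ, M φ - G * (3 * m * e₁) - G * δ - 2 * (η * G) := by
    field_simp
  rw [e1]
  linarith

end Pool.Agent.FE
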